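import Pool.Agent.NPC.Sat2
import Pool.Agent.H671R2.PolyAuto

/-!
# The hitting set problem is hard
-/

namespace Pool.Agent.Q324.Base

open Pool.Agent.NPC

/-- An instance of the hitting set problem: the sets, the number of elements, the bound. -/
abbrev HSInst : Type := List (List ℕ) × ℕ × ℕ

/-- Some set of at most `k` elements hits all sets. -/
def HS (I : HSInst) : Prop :=
  ∃ S : Finset ℕ, (∀ x ∈ S, x < I.2.1) ∧ S.card ≤ I.2.2 ∧ ∀ s ∈ I.1, ∃ x ∈ s, x ∈ S

/-- The promise: there are sets and elements; the sets are not empty, of size at most three, with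
elements below the bound; the number of elements is at most six times the number of sets, and
`k ≤ E`. -/
def HSOk (I : HSInst) : Prop :=
  I.1 ≠ [] ∧ (∀ s ∈ I.1, s ≠ [] ∧ s.length ≤ 3 ∧ ∀ x ∈ s, x < I.2.1) ∧
    I.2.1 ≤ 6 * I.1.length ∧ I.2.2 ≤ I.2.1 ∧ 1 ≤ I.2.2

/-- the element of a literal -/
def le (l : Bool × ℕ) : ℕ := 2 * l.2 + (if l.1 = true then 1 else 0)

/-- the reduction -/
def redHS (φ : List (Lit ℕ × Lit ℕ × Lit ℕ)) : HSInst :=
  (φ.map (fun c => [le c.1, le c.2.1, le c.2.2]) ++
    (List.range (3 * φ.length)).map (fun i => [2 * i, 2 * i + 1]), 6 * φ.length, 3 * φ.length)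

theorem redHS_poly : Poly redHS := by
  have h : Poly (fun φ : List (Lit ℕ × Lit ℕ × Lit ℕ) => List.range (3 * φ.length)) :=
    UPoly.range (UPoly.mul (UPoly.const 3) (UPoly.length Poly.id))
  unfold redHS le
  refine Poly.pair (Poly.append (by fun_prop) (NPC.Poly.map (F := fun _ i => [2 * i, 2 * i + 1]) h
    (by fun_prop))) (by fun_prop)

theorem le_lt {l : Bool × ℕ} {n : ℕ} (h : l.2 < n) : le l < 2 * n := by
  unfold le
  split_ifs <;> omega

theorem hardPr_HS : HardPr HSOk HS := by
  classical
  refine hardPr_SAT3b.trans redHS_poly ?_ ?_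
  · rintro φ ⟨_, hb, hne⟩
    have hm : 0 < φ.length := List.length_pos_iff.2 hne
    refine ⟨?_, ?_, ?_, ?_, ?_⟩
    · simp [redHS, hne]
    · intro s hs
      simp only [redHS, List.mem_append, List.mem_map, List.mem_range] at hs ⊢
      rcases hs with ⟨c, hc, rfl⟩ | ⟨i, hi, rfl⟩
      · obtain ⟨h1, h2, h3⟩ := hb c hc
        refine ⟨by simp, by simp, fun x hx => ?_⟩
        simp only [List.mem_cons, List.not_mem_nil, or_false] at hx
        rcases hx with rfl | rfl | rfl
        · have := le_lt h1; omega
        · have := le_lt h2; omega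
        · have := le_lt h3; omega
      · refine ⟨by simp, by simp, fun x hx => ?_⟩
        simp only [List.mem_cons, List.not_mem_nil, or_false] at hx
        rcases hx with rfl | rfl <;> omega
    · simp only [redHS, List.length_append, List.length_map, List.length_range]
      omega
    · simp only [redHS]
      omega
    · simp only [redHS]
      omega
  · rintro φ ⟨_, hb, hne⟩
    constructor
    · rintro ⟨τ, hτ⟩
      refine ⟨(Finset.range (3 * φ.length)).image (fun i => le (τ i, i)), ?_, ?_, ?_⟩
      · intro x hx
        rw [Finset.mem_image] at hx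
        obtain ⟨i, hi, rfl⟩ := hx
        have := le_lt (l := (τ i, i)) (Finset.mem_range.1 hi)
        simp only [redHS]
        omega
      · refine Finset.card_image_le.trans ?_
        simp [redHS]
      · intro s hs
        simp only [redHS, List.mem_append, List.mem_map, List.mem_range] at hs
        rcases hs with ⟨c, hc, rfl⟩ | ⟨i, hi, rfl⟩
        · obtain ⟨b1, b2, b3⟩ := hb c hc
          rcases hτ c hc with h | h | h
          · refine ⟨le c.1, by simp, Finset.mem_image.2 ⟨c.1.2, Finset.mem_range.2 b1, ?_⟩⟩
            rw [h]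
          · refine ⟨le c.2.1, by simp, Finset.mem_image.2 ⟨c.2.1.2, Finset.mem_range.2 b2, ?_⟩⟩
            rw [h]
          · refine ⟨le c.2.2, by simp, Finset.mem_image.2 ⟨c.2.2.2, Finset.mem_range.2 b3, ?_⟩⟩
            rw [h]
        · refine ⟨le (τ i, i), ?_, Finset.mem_image.2 ⟨i, Finset.mem_range.2 hi, rfl⟩⟩
          unfold le
          simp only
          split_ifs <;> simp
    · rintro ⟨S, hS1, hS2, hS3⟩
      simp only [redHS] at hS1 hS2 hS3
      have hsurj : ∀ i < 3 * φ.length, ∃ x ∈ S, x / 2 = i := by
        intro i hi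
        obtain ⟨x, hx, hxS⟩ := hS3 [2 * i, 2 * i + 1] (by
          rw [List.mem_append]
          exact Or.inr (List.mem_map.2 ⟨i, List.mem_range.2 hi, rfl⟩))
        refine ⟨x, hxS, ?_⟩
        simp only [List.mem_cons, List.not_mem_nil, or_false] at hx
        omega
      have hinj : Set.InjOn (fun x => x / 2) (S : Set ℕ) := by
        have h1 : (S.image (fun x => x / 2)).card = S.card := by
          refine le_antisymm Finset.card_image_le (hS2.trans ?_)
          have h2 : Finset.range (3 * φ.length) ⊆ S.image (fun x => x / 2) := by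
            intro i hi
            obtain ⟨x, hx, hxi⟩ := hsurj i (Finset.mem_range.1 hi)
            exact Finset.mem_image.2 ⟨x, hx, hxi⟩
          have h3 := Finset.card_le_card h2
          rwa [Finset.card_range] at h3
        exact Finset.card_image_iff.1 h1
      refine ⟨fun i => decide (2 * i + 1 ∈ S), fun c hc => ?_⟩
      obtain ⟨x, hx, hxS⟩ := hS3 [le c.1, le c.2.1, le c.2.2] (by
        rw [List.mem_append]
        exact Or.inl (List.mem_map.2 ⟨c, hc, rfl⟩))
      have key : ∀ l : Bool × ℕ, le l ∈ S → decide (2 * l.2 + 1 ∈ S) = l.1 := by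
        rintro ⟨b, i⟩ hl
        unfold le at hl
        simp only at hl ⊢
        cases b
        · simp only [decide_eq_false_iff_not]
          intro h
          have h5 : 2 * i + (if false = true then 1 else 0) = 2 * i + 1 :=
            hinj hl h (by simp only [Bool.false_eq_true, if_false]; omega)
          simp only [Bool.false_eq_true, if_false] at h5
          omega
        · simp only [if_true] at hl
          simpa using hl
      simp only [List.mem_cons, List.not_mem_nil, or_false] at hx
      rcases hx with rfl | rfl | rfl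
      · exact Or.inl (key _ hxS)
      · exact Or.inr (Or.inl (key _ hxS))
      · exact Or.inr (Or.inr (key _ hxS))

end Pool.Agent.Q324.Base
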