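import Pool.Agent.NPC.Dec

/-!
# From polynomial-time functions on codes to polynomial-time functions of data
-/

namespace Pool.Agent.Q324.Base

open Pool.Agent.NPC

/-- A function realised on codes by a polynomial-time function is polynomial-time computable. -/
theorem poly_of_polyTime {α β : Type} [TEnc α] [TEnc β] {f : α → β} {A : List Bool → List Bool}
    (hA : PolyTime A) (h : ∀ a, A (bits a) = bits (f a)) : Poly f := by
  obtain ⟨c, p, hc⟩ := H642R2.TMSim.polyTime_toPC hA
  refine ⟨c, p, fun a => ?_⟩
  have := hc (bits a)
  simp only [h] at this
  exact this

end Pool.Agent.Q324.Base
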