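import Pool.Agent.H692R2.FinGraph
import Pool.Agent.H671R2.PolyAuto
import Pool.Agent.NPC.Dec

/-!
# `NP` membership for properties of finite graphs
-/

namespace Pool.Agent.Q324.Base

open Pool.Agent.NPC Pool.Agent.H692R2

/-- matrices -/
abbrev Mx : Type := List (List Bool)

/-- entries -/
def ent (M : Mx) (i j : ℕ) : Bool := (M.getD i []).getD j false

theorem ent_poly : Poly (fun p : (Mx × ℕ) × ℕ => ent p.1.1 p.1.2 p.2) := by
  unfold ent
  fun_prop

theorem ent_poly' {α : Type} [TEnc α] {M : α → Mx} {i j : α → ℕ} (h1 : Poly M) (h2 : Poly i)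
    (h3 : Poly j) : Poly (fun a => ent (M a) (i a) (j a)) :=
  ent_poly.comp (Poly.pair (Poly.pair h1 h2) h3)

attribute [fun_prop] ent_poly'
attribute [local irreducible] ent

/-- the vertices -/
def rg (M : Mx) : List ℕ := List.range M.length

theorem rg_poly' {α : Type} [TEnc α] {M : α → Mx} (h1 : Poly M) : Poly (fun a => rg (M a)) :=
  UPoly.range (UPoly.length h1)

theorem mem_rg {M : Mx} {i : ℕ} : i ∈ rg M ↔ i < M.length := List.mem_range

attribute [fun_prop] rg_poly'
attribute [local irreducible] rg

/-- the test whether a matrix is the adjacency matrix of a graph -/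
def validG (M : Mx) : Bool :=
  M.all (fun row => decide (row.length = M.length)) &&
  ((rg M).all (fun a => !(ent M a a)) &&
  (rg M).all (fun a => (rg M).all (fun b => !(ent M a b) || ent M b a)))

theorem validG_poly : Poly validG := by
  unfold validG
  fun_prop

theorem validG_poly' {α : Type} [TEnc α] {M : α → Mx} (h1 : Poly M) :
    Poly (fun a => validG (M a)) := validG_poly.comp h1

attribute [fun_prop] validG_poly'

theorem getD_ofFn {β : Type} {n : ℕ} (f : Fin n → β) (d : β) (i : Fin n) :
    (List.ofFn f).getD i d = f i := by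
  rw [List.getD_eq_getElem _ _ (by simp), List.getElem_ofFn]

theorem ent_matrix (G : FinGraph) (i j : Fin G.n) : ent G.matrix i j = true ↔ G.graph.Adj i j := by
  classical
  unfold ent FinGraph.matrix
  rw [getD_ofFn, getD_ofFn]
  simp

theorem length_matrix (G : FinGraph) : G.matrix.length = G.n := by simp [FinGraph.matrix]

theorem validG_iff (M : Mx) : validG M = true ↔ ∃ G : FinGraph, G.matrix = M := by
  classical
  unfold validG
  simp only [Bool.and_eq_true, List.all_eq_true, decide_eq_true_eq, mem_rg, Bool.or_eq_true,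
    Bool.not_eq_true']
  constructor
  · rintro ⟨h1, h2, h3⟩
    refine ⟨⟨M.length, ⟨fun i j => ent M i j = true, ⟨fun a b hab => ?_⟩, ⟨fun a ha => ?_⟩⟩⟩, ?_⟩
    · rcases h3 a a.2 b b.2 with h | h
      · rw [hab] at h
        exact absurd h (by simp)
      · exact h
    · have ha' : ent M a a = true := ha
      rw [h2 a a.2] at ha'
      exact absurd ha' (by simp)
    · unfold FinGraph.matrix
      apply List.ext_getElem
      · simp
      · intro i h5 h6
        simp only [List.getElem_ofFn]
        apply List.ext_getElem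
        · simp only [List.length_ofFn]
          exact (h1 _ (List.getElem_mem h6)).symm
        · intro j h7 h8
          simp only [List.getElem_ofFn]
          have h9 : ent M i j = M[i][j] := by
            unfold ent
            rw [List.getD_eq_getElem _ _ h6, List.getD_eq_getElem _ _ h8]
          rw [← h9]
          exact Bool.decide_eq_true
  · rintro ⟨G, rfl⟩
    have hl := length_matrix G
    have hle := ent_matrix G
    refine ⟨?_, ?_, ?_⟩
    · intro row hrow
      unfold FinGraph.matrix at hrow ⊢
      rw [List.mem_ofFn] at hrow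
      obtain ⟨i, rfl⟩ := hrow
      simp
    · intro a ha
      rw [hl] at ha
      have := hle ⟨a, ha⟩ ⟨a, ha⟩
      rw [← Bool.not_eq_true]
      intro h
      exact G.graph.loopless.irrefl _ (this.1 h)
    · intro a ha b hb
      rw [hl] at ha hb
      by_cases h1 : ent G.matrix a b = true
      · exact Or.inr ((hle ⟨b, hb⟩ ⟨a, ha⟩).2 ((hle ⟨a, ha⟩ ⟨b, hb⟩).1 h1).symm)
      · exact Or.inl (by simpa using h1)

/-- A property of finite graphs with polynomially bounded certificates that can be verified in
polynomial time is in `NP`. -/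
theorem inNPP_finGraph {β : Type} [TEnc β] [TDec β] {P : FinGraph → Prop} {R : Mx × β → Bool}
    (hR : Poly R) (p : Polynomial ℕ)
    (h : ∀ G : FinGraph, P G ↔ ∃ w : β, sz w ≤ p.eval (sz G.matrix) ∧ R (G.matrix, w) = true) :
    InNPP P := by
  have h1 : InNPP (fun M : Mx => ∃ G : FinGraph, G.matrix = M ∧ P G) := by
    refine inNPP_of (R := fun x : Mx × β => validG x.1 && R x)
      (NPC.Poly.and (validG_poly.comp (NPC.Poly.fst NPC.Poly.id)) hR) p ?_
    intro M
    constructor
    · rintro ⟨G, rfl, hG⟩
      obtain ⟨w, hw, hw'⟩ := (h G).1 hG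
      exact ⟨w, hw, Bool.and_eq_true_iff.2 ⟨(validG_iff _).2 ⟨G, rfl⟩, hw'⟩⟩
    · rintro ⟨w, hw, hw'⟩
      obtain ⟨h3, h4⟩ := Bool.and_eq_true_iff.1 hw'
      obtain ⟨G, rfl⟩ := (validG_iff _).1 h3
      exact ⟨G, rfl, (h G).2 ⟨w, hw, h4⟩⟩
  have h2 : lang P = lang (fun M : Mx => ∃ G : FinGraph, G.matrix = M ∧ P G) := by
    ext x
    constructor
    · rintro ⟨G, rfl, hG⟩
      exact ⟨G.matrix, rfl, G, rfl, hG⟩
    · rintro ⟨M, rfl, G, rfl, hG⟩
      exact ⟨G, rfl, hG⟩
  unfold InNPP
  rw [h2]
  exact h1

end Pool.Agent.Q324.Base
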